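import Pool.Agent.U587.PT.Bad

set_option autoImplicit false

/-!
The exceptional multiples for one Lipschitz function and a function `p` with a logarithm like `θ log x`.
-/

namespace Pool.Agent.U587.PW

open MeasureTheory Filter Finset
open Pool.Agent.Y957.MC (Mod Adm Phase)
open Pool.Agent.Y448.MC (GG GG_meas GG_norm sum_GG)
open Pool.Agent.U587.PT
open scoped Topology ENNReal

/-- the phase of a power (adaptation of `Pool.Agent.Y571.MC.pow`) -/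
theorem powD {θ : ℝ} (hθ : 0 < θ) : ∃ (φ : ℕ → ℝ → ℝ) (x₀ : ℝ), Phase φ θ ∧
    ∀ x, x₀ ≤ x → 0 < x ^ θ ∧ φ 0 x = Real.log (x ^ θ) := by
  refine ⟨Pool.Agent.Y571.MC.pw θ, 1, ⟨hθ, ⟨1, ?_⟩, ?_⟩, ?_⟩
  · intro m x hx
    have hx0 : x ≠ 0 := by linarith
    cases m with
    | zero =>
      have h1 := (Real.hasDerivAt_log hx0).const_mul θ
      refine h1.congr_deriv ?_
      simp [Pool.Agent.Y571.MC.pw]
    | succ m =>
      have h1 : HasDerivAt (fun t : ℝ => (-1) ^ m * (m.factorial : ℝ) * (t ^ (m + 1))⁻¹) _ x :=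
        (((hasDerivAt_id' x).fun_pow (m + 1)).fun_inv (pow_ne_zero _ hx0)).const_mul
        ((-1) ^ m * (m.factorial : ℝ))
      have h2 := h1.const_mul θ
      refine h2.congr_deriv ?_
      show _ = θ * ((-1) ^ (m + 1) * ((m + 1).factorial : ℝ) * (x ^ (m + 1 + 1))⁻¹)
      rw [Nat.factorial_succ]
      push_cast
      field_simp
      ring
  · intro m
    apply tendsto_const_nhds.congr'
    filter_upwards [eventually_gt_atTop 0] with x hx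
    show _ = (-1) ^ m * (x ^ (m + 1) * (θ * ((-1) ^ m * (m.factorial : ℝ) * (x ^ (m + 1))⁻¹)))
    have h4 : ((-1 : ℝ) ^ m) * (-1) ^ m = 1 := by rw [← mul_pow]; simp
    have hx0 : x ^ (m + 1) ≠ 0 := by positivity
    calc (m.factorial : ℝ) * θ = (((-1 : ℝ) ^ m) * (-1) ^ m) * ((m.factorial : ℝ) * θ) *
          (x ^ (m + 1) * (x ^ (m + 1))⁻¹) := by rw [h4, one_mul, mul_inv_cancel₀ hx0, mul_one]
      _ = _ := by ring
  · intro x hx
    refine ⟨Real.rpow_pos_of_pos (by linarith) _, ?_⟩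
    show θ * Real.log x = _
    rw [Real.log_rpow (by linarith)]

/-- the data of the function `p` -/
structure Dat (p : ℝ → ℝ) (d : ℕ) : Prop where
  meas : Measurable p
  phase : ∃ (θ : ℝ) (φ : ℕ → ℝ → ℝ) (x₀ : ℝ), 0 < θ ∧ θ ≤ d ∧ Phase φ θ ∧ ∀ x, x₀ ≤ x → 0 < p x ∧ φ 0 x = Real.log (p x)
  growth : ∃ C : ℝ, 0 ≤ C ∧ ∀ (N : ℕ) (v : ℝ), 1 ≤ N → 0 ≤ v → v ≤ N → |p v| ≤ C * (N : ℝ) ^ d

lemma dat_pow {θ : ℝ} (hθ : 0 < θ) {d : ℕ} (hd : θ ≤ d) : Dat (fun x => x ^ θ) d where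
  meas := measurable_id.pow_const θ
  phase := by
    obtain ⟨φ, x₀, h1, h2⟩ := powD hθ
    exact ⟨θ, φ, x₀, hθ, hd, h1, h2⟩
  growth := by
    refine ⟨1, zero_le_one, fun N v hN hv0 hvN => ?_⟩
    have hN1 : (1 : ℝ) ≤ N := by exact_mod_cast hN
    rw [one_mul, abs_of_nonneg (Real.rpow_nonneg hv0 _), ← Real.rpow_natCast]
    exact (Real.rpow_le_rpow hv0 hvN hθ.le).trans (Real.rpow_le_rpow_of_exponent_le hN1 hd)

lemma dat_poly {P : Polynomial ℝ} (hd : 0 < P.natDegree) (hl : 0 < P.leadingCoeff) {d : ℕ} (hdd : P.natDegree ≤ d) :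
    Dat (fun x => P.eval x) d where
  meas := P.continuous.measurable
  phase := by
    obtain ⟨φ, x₀, h1, h2⟩ := polyD hd hl
    exact ⟨P.natDegree, φ, x₀, by exact_mod_cast hd, by exact_mod_cast hdd, h1, h2⟩
  growth := by
    obtain ⟨C, hC, h⟩ := poly_real P
    refine ⟨C, hC, fun N v hN hv0 hvN => (h N v hN hv0 hvN).trans ?_⟩
    have hN1 : (1 : ℝ) ≤ N := by exact_mod_cast hN
    exact mul_le_mul_of_nonneg_left (pow_le_pow_right₀ hN1 hdd) hC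

/-- the block estimate -/
theorem blkP {p : ℝ → ℝ} {d : ℕ} (hp : Dat p d) :
    ∃ Λ : ℝ, 1 ≤ Λ ∧ ∀ A Cm : ℝ, 0 < A → 1 ≤ Cm → ∃ C : ℝ, 0 ≤ C ∧ ∀ᶠ N : ℕ in atTop,
      ∀ F : ℝ → ℂ, Measurable F → (∀ v, ‖F v‖ ≤ 1) → (∀ M : ℝ, 1 ≤ M → Mod Λ F Cm M) →
      ∫ a in A..2 * A, ‖(1 / (N : ℂ)) * (∑ n ∈ Ioc ⌊(1 / 2 : ℝ) * N⌋₊ N, F (a * p n) -
        ∫ v in (⌊(1 / 2 : ℝ) * N⌋₊ : ℝ)..N, F (a * p v))‖ ^ 2 ≤ C * (N : ℝ) ^ (-(dD d)) := by
  obtain ⟨θ, φ, x₀, hθ, hθd, hph, hpos⟩ := hp.phase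
  obtain ⟨X1, hX1, hp0, hgr⟩ := growD (p := p) hph hpos
  obtain ⟨Ce, hCe, hexp⟩ := psgU (p := p) hph hpos (ε := 1 / 2) (2 * d + 2) (by norm_num) (by norm_num)
  have h := blkG (p := p) (d := θ) (Q0 := 2 * d + 1) Pool.Agent.Y758.MC.parm
    Pool.Agent.Y259.MC.tail Pool.Agent.Y259.MC.par hθ hX1 hp0 hgr hp.meas (ε := 1 / 2) (by norm_num)
    (by norm_num) (by push_cast; linarith) hCe hexp
  rw [dD_eq] at h
  exact h

/-- the difference of the averages tends to zero -/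
def Cd (p : ℝ → ℝ) (F : ℝ → ℂ) (a : ℝ) : Prop :=
  Tendsto (fun N : ℕ => (1 / (N : ℂ)) * (∑ m ∈ Icc 1 N, F (a * p m) - ∫ v in (0 : ℝ)..N, F (a * p v))) atTop (𝓝 0)

/-- the half block -/
noncomputable def hf (p : ℝ → ℝ) (F : ℝ → ℂ) (N : ℕ) (a : ℝ) : ℂ :=
  (1 / (N : ℂ)) * ∑ m ∈ Ioc (N / 2) N, GG p F m a

lemma hf_bd {p : ℝ → ℝ} {F : ℝ → ℂ} (hF1 : ∀ v, ‖F v‖ ≤ 1) (N : ℕ) (a : ℝ) : ‖hf p F N a‖ ≤ 1 := by
  unfold hf
  rw [norm_mul, norm_div, norm_one, Complex.norm_natCast]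
  rcases Nat.eq_zero_or_pos N with hN | hN
  · rw [hN]; simp
  · have h1 : ‖∑ m ∈ Ioc (N / 2) N, GG p F m a‖ ≤ N := by
      refine (norm_sum_le _ _).trans ((sum_le_sum fun m _ => GG_norm hF1 m a).trans ?_)
      rw [sum_const, Nat.card_Ioc, nsmul_eq_mul, mul_one]
      exact_mod_cast Nat.sub_le _ _
    have hN' : (0 : ℝ) < N := Nat.cast_pos.2 hN
    rw [one_div, inv_mul_le_iff₀ hN', mul_one]
    exact h1

lemma hf_lip {p : ℝ → ℝ} (hpm : Measurable p) {d : ℕ} {Cp : ℝ}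
    (hCp : ∀ (N : ℕ) (v : ℝ), 1 ≤ N → 0 ≤ v → v ≤ N → |p v| ≤ Cp * (N : ℝ) ^ d) {F : ℝ → ℂ} (hFm : Measurable F)
    (hF1 : ∀ v, ‖F v‖ ≤ 1) {K : ℝ} (hK0 : 0 ≤ K) (hFl : ∀ v w, ‖F v - F w‖ ≤ K * |v - w|)
    {N : ℕ} (hN : 1 ≤ N) (a b : ℝ) :
    ‖hf p F N a - hf p F N b‖ ≤ K * Cp * (N : ℝ) ^ d * |a - b| := by
  have hCN : 0 ≤ Cp * (N : ℝ) ^ d := (abs_nonneg _).trans (hCp N 0 hN le_rfl (Nat.cast_nonneg _))
  have hii : ∀ (c : ℝ) (u v : ℝ), IntervalIntegrable (fun v => F (c * p v)) volume u v := by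
    intro c u v
    refine (intervalIntegrable_const (c := (1 : ℝ))).mono_fun
      (hFm.comp (measurable_const.mul hpm)).aestronglyMeasurable (ae_of_all _ fun y => ?_)
    rw [norm_one]
    exact hF1 _
  have hpt : ∀ v : ℝ, 0 ≤ v → v ≤ N → ‖F (a * p v) - F (b * p v)‖ ≤ K * (Cp * (N : ℝ) ^ d) * |a - b| := by
    intro v h0 h1
    refine (hFl _ _).trans ?_
    rw [← sub_mul, abs_mul, mul_assoc]
    refine mul_le_mul_of_nonneg_left ?_ hK0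
    rw [mul_comm |a - b|]
    exact mul_le_mul_of_nonneg_right (hCp N v hN h0 h1) (abs_nonneg _)
  have hterm : ∀ m ∈ Ioc (N / 2) N, ‖GG p F m a - GG p F m b‖ ≤ K * (Cp * (N : ℝ) ^ d) * |a - b| := by
    intro m hm
    rw [mem_Ioc] at hm
    have hm1 : (1 : ℝ) ≤ m := by
      have : 1 ≤ m := by omega
      exact_mod_cast this
    have hmN : (m : ℝ) ≤ N := by exact_mod_cast hm.2
    unfold GG
    have e1 : (1 / 2 : ℂ) * (F (a * p m) - ∫ v in ((m : ℝ) - 1)..m, F (a * p v)) -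
        (1 / 2 : ℂ) * (F (b * p m) - ∫ v in ((m : ℝ) - 1)..m, F (b * p v)) =
        (1 / 2 : ℂ) * ((F (a * p m) - F (b * p m)) -
          ∫ v in ((m : ℝ) - 1)..m, (F (a * p v) - F (b * p v))) := by
      rw [intervalIntegral.integral_sub (hii a _ _) (hii b _ _)]
      ring
    rw [e1, norm_mul]
    have h3 : ‖(1 / 2 : ℂ)‖ = 1 / 2 := by norm_num
    have h4 : ‖∫ v in ((m : ℝ) - 1)..m, (F (a * p v) - F (b * p v))‖ ≤
        K * (Cp * (N : ℝ) ^ d) * |a - b| * |(m : ℝ) - (m - 1)| := by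
      refine intervalIntegral.norm_integral_le_of_norm_le_const fun v hv => ?_
      rw [Set.uIoc_of_le (by linarith)] at hv
      exact hpt v (by linarith [hv.1]) (hv.2.trans hmN)
    rw [show (m : ℝ) - (m - 1) = 1 by ring, abs_one, mul_one] at h4
    rw [h3]
    have h5 := (norm_sub_le (F (a * p m) - F (b * p m))
      (∫ v in ((m : ℝ) - 1)..m, (F (a * p v) - F (b * p v)))).trans
      (add_le_add (hpt m (by linarith) hmN) h4)
    linarith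
  have hNp : (0 : ℝ) < N := by exact_mod_cast hN
  unfold hf
  rw [← mul_sub, ← sum_sub_distrib, norm_mul, norm_div, norm_one, Complex.norm_natCast, one_div,
    inv_mul_le_iff₀ hNp]
  refine (norm_sum_le _ _).trans ((sum_le_sum hterm).trans ?_)
  rw [sum_const, Nat.card_Ioc, nsmul_eq_mul]
  have h6 : ((N - N / 2 : ℕ) : ℝ) ≤ N := by exact_mod_cast Nat.sub_le _ _
  have h7 : 0 ≤ K * (Cp * (N : ℝ) ^ d) * |a - b| := by positivity
  calc ((N - N / 2 : ℕ) : ℝ) * (K * (Cp * (N : ℝ) ^ d) * |a - b|)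
      ≤ N * (K * (Cp * (N : ℝ) ^ d) * |a - b|) := mul_le_mul_of_nonneg_right h6 h7
    _ = _ := by ring

/-- times between one and two -/
theorem bad12 {p : ℝ → ℝ} {d : ℕ} (hd0 : 0 < d) (hp : Dat p d) {F : ℝ → ℂ} (hFm : Measurable F)
    (hF1 : ∀ v, ‖F v‖ ≤ 1) {K : ℝ} (hK0 : 0 ≤ K) (hFl : ∀ v w, ‖F v - F w‖ ≤ K * |v - w|) :
    dimH {a : ℝ | a ∈ Set.Icc (1 : ℝ) 2 ∧ ¬ Cd p F a} ≤ dk (kD d) d := by
  obtain ⟨Λ, hΛ, hblk⟩ := blkP hp
  obtain ⟨δ, hδd⟩ : ∃ δ : ℝ, δ = dD d := ⟨_, rfl⟩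
  rw [← hδd] at hblk
  have hδ : 0 < δ := by rw [hδd]; unfold dD; positivity
  obtain ⟨k, hk⟩ : ∃ k : ℕ, k = kD d := ⟨_, rfl⟩
  rw [← hk]
  have hk2 : 2 ≤ k := hk ▸ kD_two d
  have hkq : ∀ q : ℕ, 1 ≤ q → k * q ≠ 0 := fun q hq => Nat.mul_ne_zero (by omega) (by omega)
  have hkδ : 1 ≤ k * δ := by
    rw [hk, hδd]
    unfold kD dD
    push_cast
    rw [mul_one_div_cancel (by positivity)]
  obtain ⟨Cp, hCp0, hCp⟩ := hp.growth
  obtain ⟨Cm, hCm⟩ : ∃ Cm : ℝ, Cm = max 1 (K * (2 * Real.exp Λ) * Λ) := ⟨_, rfl⟩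
  obtain ⟨C, hC, hev⟩ := hblk 1 Cm one_pos (hCm ▸ le_max_left _ _)
  have hKC : 0 ≤ 2 * (K * Cp) := mul_nonneg (by norm_num) (mul_nonneg hK0 hCp0)
  refine DX.dimH_of_power (Nat.mul_pos (by omega) hd0) (by nlinarith) fun q hq => ?_
  refine ⟨fun l a => ‖hf p F ((l + 1) ^ (k * q)) a‖ ^ 2, 2 * (K * Cp), C, hKC, hC,
    fun l a => sq_nonneg _, fun l a _ b _ => ?_, ?_, fun a ha => ⟨ha.1, ?_⟩⟩
  · have h2 := (abs_norm_sub_norm_le (hf p F ((l + 1) ^ (k * q)) a) (hf p F ((l + 1) ^ (k * q)) b)).trans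
      (hf_lip hp.meas hCp hFm hF1 hK0 hFl (N := (l + 1) ^ (k * q)) (Nat.one_le_iff_ne_zero.2 (by positivity)) a b)
    have h3 : |‖hf p F ((l + 1) ^ (k * q)) a‖ + ‖hf p F ((l + 1) ^ (k * q)) b‖| ≤ 2 := by
      rw [abs_of_nonneg (by positivity)]
      linarith [hf_bd (p := p) hF1 ((l + 1) ^ (k * q)) a, hf_bd (p := p) hF1 ((l + 1) ^ (k * q)) b]
    rw [sq_sub_sq, abs_mul]
    refine (mul_le_mul h3 h2 (abs_nonneg _) (by norm_num)).trans (le_of_eq ?_)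
    push_cast
    rw [← pow_mul, show k * q * d = k * d * q by ring]
    ring
  · have ht : Tendsto (fun l : ℕ => (l + 1) ^ (k * q)) atTop atTop :=
      (tendsto_pow_atTop (hkq q hq)).comp (tendsto_add_atTop_nat 1)
    filter_upwards [ht.eventually hev] with l hl
    obtain ⟨N, hN⟩ : ∃ N : ℕ, N = (l + 1) ^ (k * q) := ⟨_, rfl⟩
    rw [← hN] at hl ⊢
    have h2 := hl F hFm hF1 (fun M hM => mod_mono (hCm ▸ le_max_right _ _) hM (mod_lip hK0 hFl hΛ hM))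
    rw [mul_one] at h2
    have h1 : ∀ a, ‖hf p F N a‖ ^ 2 = (1 / 4) * ‖(1 / (N : ℂ)) * (∑ m ∈ Ioc ⌊(1 / 2 : ℝ) * N⌋₊ N, F (a * p m) -
        ∫ v in (⌊(1 / 2 : ℝ) * N⌋₊ : ℝ)..N, F (a * p v))‖ ^ 2 := by
      intro a
      rw [half_floor]
      unfold hf
      rw [sum_GG hp.meas hFm hF1 (Nat.div_le_self N 2) a]
      rw [mul_left_comm, norm_mul (1 / 2 : ℂ), mul_pow]
      norm_num
    simp_rw [h1]
    rw [intervalIntegral.integral_const_mul]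
    have hl1 : (1 : ℝ) ≤ (l : ℝ) + 1 := by
      have : (0 : ℝ) ≤ (l : ℝ) := Nat.cast_nonneg _
      linarith
    have h5 : (N : ℝ) ^ (-δ) ≤ (((l : ℝ) + 1) ^ (1 * q))⁻¹ := by
      rw [hN]
      push_cast
      rw [← Real.rpow_natCast ((l : ℝ) + 1) (k * q), ← Real.rpow_mul (by linarith),
        ← Real.rpow_natCast ((l : ℝ) + 1) (1 * q), ← Real.rpow_neg (by linarith)]
      refine Real.rpow_le_rpow_of_exponent_le hl1 ?_
      push_cast
      have hq0 : (0 : ℝ) ≤ q := Nat.cast_nonneg _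
      nlinarith
    have h6 : (0 : ℝ) ≤ (N : ℝ) ^ (-δ) := by positivity
    rw [div_eq_mul_inv]
    refine (mul_le_mul_of_nonneg_left h2 (by norm_num)).trans ?_
    calc (1 / 4) * (C * (N : ℝ) ^ (-δ)) ≤ C * (N : ℝ) ^ (-δ) := by nlinarith [mul_nonneg hC h6]
      _ ≤ _ := mul_le_mul_of_nonneg_left h5 hC
  · by_contra hne
    rw [not_frequently] at hne
    apply ha.2
    have h1 : Tendsto (fun l : ℕ => ‖hf p F ((l + 1) ^ (k * q)) a‖ ^ 2) atTop (𝓝 0) := by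
      have h2 : Tendsto (fun l : ℕ => 1 / ((l : ℝ) + 1) ^ 2) atTop (𝓝 0) := by
        have h3 := (tendsto_one_div_add_atTop_nhds_zero_nat (𝕜 := ℝ)).pow 2
        rw [zero_pow (by norm_num)] at h3
        refine h3.congr fun l => ?_
        rw [one_div_pow]
      refine squeeze_zero' (Eventually.of_forall fun l => sq_nonneg _) ?_ h2
      filter_upwards [hne] with l hl
      exact not_lt.1 hl
    have h5 := h1.sqrt
    rw [Real.sqrt_zero] at h5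
    have h7 : Tendsto (fun l : ℕ => hf p F ((l + 1) ^ (k * q)) a) atTop (𝓝 0) := by
      rw [tendsto_zero_iff_norm_tendsto_zero]
      refine h5.congr fun l => ?_
      exact Real.sqrt_sq (norm_nonneg _)
    have h8 := half_det (g := fun m => GG p F m a) (fun m => GG_norm hF1 m a) (m := k * q)
      (Nat.mul_pos (by omega) (by omega)) h7
    have h9 := h8.const_mul 2
    rw [mul_zero] at h9
    refine h9.congr fun N => ?_
    have e1 : ∑ m ∈ Icc 1 N, GG p F m a = ∑ m ∈ Ioc 0 N, GG p F m a := rfl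
    have e2 : ∑ m ∈ Icc 1 N, F (a * p m) = ∑ m ∈ Ioc 0 N, F (a * p m) := rfl
    rw [e1, e2, sum_GG hp.meas hFm hF1 (Nat.zero_le N) a]
    push_cast
    ring

/-- all positive times -/
theorem badpos {p : ℝ → ℝ} {d : ℕ} (hd0 : 0 < d) (hp : Dat p d) {F : ℝ → ℂ} (hFm : Measurable F)
    (hF1 : ∀ v, ‖F v‖ ≤ 1) {K : ℝ} (hK0 : 0 ≤ K) (hFl : ∀ v w, ‖F v - F w‖ ≤ K * |v - w|) :
    dimH {a : ℝ | 0 < a ∧ ¬ Cd p F a} ≤ dk (kD d) d := by
  have key : ∀ A : ℝ, 0 < A → dimH {a : ℝ | A⁻¹ * a ∈ Set.Icc (1 : ℝ) 2 ∧ ¬ Cd p F a} ≤ dk (kD d) d := by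
    intro A hA
    have h1 := bad12 hd0 hp (F := fun v => F (A * v)) (hFm.comp (measurable_const.mul measurable_id)) (fun v => hF1 _)
      (K := K * A) (by positivity) (fun v w => by
        refine (hFl _ _).trans (le_of_eq ?_)
        rw [← mul_sub, abs_mul, abs_of_pos hA, mul_assoc])
    have hlip : LipschitzWith (Real.toNNReal |A|) fun b : ℝ => A * b := by
      apply LipschitzWith.of_dist_le_mul
      intro b c
      rw [Real.dist_eq, Real.dist_eq, ← mul_sub, abs_mul, Real.coe_toNNReal _ (abs_nonneg _)]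
    refine le_trans (dimH_mono ?_) ((hlip.dimH_image_le _).trans h1)
    rintro a ⟨ha1, ha2⟩
    refine ⟨A⁻¹ * a, ⟨ha1, fun h2 => ha2 ?_⟩, by simp only; rw [mul_inv_cancel_left₀ hA.ne']⟩
    unfold Cd at h2 ⊢
    have e : ∀ v : ℝ, A * (A⁻¹ * a * p v) = a * p v := fun v => by field_simp
    simpa only [e] using h2
  have hsub : {a : ℝ | 0 < a ∧ ¬ Cd p F a} ⊆ ⋃ i : ℤ,
      {a : ℝ | ((2 : ℝ) ^ i)⁻¹ * a ∈ Set.Icc (1 : ℝ) 2 ∧ ¬ Cd p F a} := by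
    rintro a ⟨ha0, ha⟩
    rw [Set.mem_iUnion]
    obtain ⟨i, hi⟩ := exists_mem_Ico_zpow ha0 (one_lt_two : (1 : ℝ) < 2)
    have hpi : (0 : ℝ) < 2 ^ i := by positivity
    have hi2 : a < 2 * 2 ^ i := by
      have := hi.2
      rw [zpow_add_one₀ (by norm_num)] at this
      linarith
    refine ⟨i, ⟨?_, ?_⟩, ha⟩
    · rw [inv_mul_eq_div, le_div_iff₀ hpi, one_mul]
      exact hi.1
    · rw [inv_mul_eq_div, div_le_iff₀ hpi]
      exact hi2.le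
  refine (dimH_mono hsub).trans ?_
  rw [dimH_iUnion]
  exact iSup_le fun i => key _ (by positivity)

end Pool.Agent.U587.PW
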