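import Pool.Agent.U587.PW.Pow
import Pool.Agent.Y957.VK.Step3

set_option autoImplicit false

/-!
The exceptional multiples for one bounded sequence.
-/

namespace Pool.Agent.U587.PW

open MeasureTheory Filter Finset
open Pool.Agent.Y957.MC (Mod Adm Phase)
open Pool.Agent.Y957.St (sf sf_meas Bh Bh_cont Bh_nonneg Bh_le Bh_avg lo lo_norm lo_cont lo_near sf_ii cont_avg avg_range)
open Pool.Agent.U587.PT
open scoped Topology ENNReal

lemma dat_adm {p : ℝ → ℝ} {d : ℕ} (hp : Dat p d) : Adm p := by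
  obtain ⟨θ, φ, x₀, _, _, h1, h2⟩ := hp.phase
  exact ⟨φ, θ, x₀, h1, h2⟩

lemma lo_lip {b : ℕ → ℂ} (hb : ∀ n, ‖b n‖ ≤ 1) {h : ℝ} (hh : 0 < h) (x y : ℝ) :
    ‖lo b h x - lo b h y‖ ≤ (2 / h) * |x - y| := by
  have hi : ∀ u v : ℝ, IntervalIntegrable (sf b) volume u v := fun u v => sf_ii b hb u v
  have e : ∀ t, lo b h t = (1 / (h : ℂ)) * ((∫ s in (0 : ℝ)..(t + h), sf b s) - ∫ s in (0 : ℝ)..t, sf b s) := by
    intro t
    unfold lo
    rw [intervalIntegral.integral_interval_sub_left (hi _ _) (hi _ _)]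
  have hd : ∀ u v : ℝ, ‖(∫ s in (0 : ℝ)..u, sf b s) - ∫ s in (0 : ℝ)..v, sf b s‖ ≤ |u - v| := by
    intro u v
    rw [intervalIntegral.integral_interval_sub_left (hi _ _) (hi _ _)]
    have h1 : ‖∫ s in v..u, sf b s‖ ≤ 1 * |u - v| :=
      intervalIntegral.norm_integral_le_of_norm_le_const fun s _ => hb _
    rwa [one_mul] at h1
  rw [e, e, ← mul_sub, norm_mul, norm_div, norm_one, Complex.norm_real, Real.norm_eq_abs, abs_of_pos hh]
  have h2 := hd (x + h) (y + h)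
  have h3 := hd x y
  rw [add_sub_add_right_eq_sub] at h2
  have e2 : (∫ s in (0 : ℝ)..(x + h), sf b s) - (∫ s in (0 : ℝ)..x, sf b s) -
      ((∫ s in (0 : ℝ)..(y + h), sf b s) - ∫ s in (0 : ℝ)..y, sf b s) =
      ((∫ s in (0 : ℝ)..(x + h), sf b s) - ∫ s in (0 : ℝ)..(y + h), sf b s) -
      ((∫ s in (0 : ℝ)..x, sf b s) - ∫ s in (0 : ℝ)..y, sf b s) := by ring
  rw [e2]
  calc 1 / h * ‖_‖ ≤ 1 / h * (|x - y| + |x - y|) := by
        refine mul_le_mul_of_nonneg_left ((norm_sub_le _ _).trans (add_le_add h2 h3)) (by positivity)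
    _ = _ := by ring

lemma Bh_lip {h : ℝ} (hh : 0 < h) (x y : ℝ) : |Bh h x - Bh h y| ≤ (1 / h) * |x - y| := by
  unfold Bh
  have h1 : |max 0 (min 1 (2 - ‖(x : UnitAddCircle)‖ / h)) - max 0 (min 1 (2 - ‖(y : UnitAddCircle)‖ / h))| ≤
      |(2 - ‖(x : UnitAddCircle)‖ / h) - (2 - ‖(y : UnitAddCircle)‖ / h)| := by
    rw [max_comm 0, max_comm 0]
    refine (abs_max_sub_max_le_abs _ _ _).trans ?_
    have := abs_min_sub_min_le_max 1 (2 - ‖(x : UnitAddCircle)‖ / h) 1 (2 - ‖(y : UnitAddCircle)‖ / h)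
    refine this.trans (max_le ?_ le_rfl)
    rw [sub_self, abs_zero]
    exact abs_nonneg _
  refine h1.trans ?_
  have e1 : (2 - ‖(x : UnitAddCircle)‖ / h) - (2 - ‖(y : UnitAddCircle)‖ / h) =
      (1 / h) * (‖(y : UnitAddCircle)‖ - ‖(x : UnitAddCircle)‖) := by ring
  rw [e1, abs_mul, abs_of_pos (by positivity : (0 : ℝ) < 1 / h)]
  refine mul_le_mul_of_nonneg_left ?_ (by positivity)
  have h2 := abs_norm_sub_norm_le (y : UnitAddCircle) (x : UnitAddCircle)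
  refine h2.trans ?_
  rw [← AddCircle.coe_sub]
  have h3 : ‖((y - x : ℝ) : UnitAddCircle)‖ ≤ |y - x| := by
    rw [UnitAddCircle.norm_eq]
    have := round_le (y - x) 0
    simpa using this
  rw [abs_sub_comm x y]
  exact h3

/-- the exceptional set of one sequence -/
def Ex (p : ℝ → ℝ) (b : ℕ → ℂ) : Set ℝ := ⋃ k : ℕ, ({a : ℝ | 0 < a ∧ ¬ Cd p (lo b (1 / ((k : ℝ) + 4))) a} ∪
  {a : ℝ | 0 < a ∧ ¬ Cd p (fun v => ((Bh (1 / ((k : ℝ) + 4)) v : ℝ) : ℂ)) a})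

lemma Ex_dim {p : ℝ → ℝ} {d : ℕ} (hd0 : 0 < d) (hp : Dat p d) {b : ℕ → ℂ} (hb : ∀ n, ‖b n‖ ≤ 1) :
    dimH (Ex p b) ≤ dk (kD d) d := by
  unfold Ex
  rw [dimH_iUnion]
  refine iSup_le fun k => ?_
  have hh : (0 : ℝ) < 1 / ((k : ℝ) + 4) := by positivity
  rw [dimH_union]
  refine max_le ?_ ?_
  · exact badpos hd0 hp (lo_cont hb _).measurable (fun v => lo_norm hb hh v) (K := 2 / (1 / ((k : ℝ) + 4)))
      (by positivity) (fun v w => lo_lip hb hh v w)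
  · refine badpos hd0 hp (Complex.measurable_ofReal.comp (Bh_cont _).measurable) (fun v => ?_)
      (K := 1 / (1 / ((k : ℝ) + 4))) (by positivity) (fun v w => ?_)
    · rw [Complex.norm_real, Real.norm_of_nonneg (Bh_nonneg _ _)]
      exact Bh_le _ _
    · rw [← Complex.ofReal_sub, Complex.norm_real, Real.norm_eq_abs]
      exact Bh_lip hh v w

theorem Ex_conv {p : ℝ → ℝ} {d : ℕ} (hp : Dat p d) {b : ℕ → ℂ} (hb : ∀ n, ‖b n‖ ≤ 1) {L : ℂ}
    (hL : Tendsto (fun M : ℕ => (1 / (M : ℂ)) * ∑ m ∈ Finset.range M, b m) atTop (𝓝 L)) {a : ℝ} (ha : 0 < a)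
    (haE : a ∉ Ex p b) :
    Tendsto (fun N : ℕ => (1 / (N : ℂ)) * ∑ n ∈ Icc 1 N, b ⌊a * p n⌋₊) atTop (𝓝 L) := by
  have hpm := hp.meas
  have hapm : Measurable fun v : ℝ => a * p v := measurable_const.mul hpm
  obtain ⟨K, hK, hreg⟩ := Pool.Agent.Y274.MC.regc p (dat_adm hp) hpm
  have h3 := cont_avg p (dat_adm hp) hpm b hb L hL a ha
  unfold Ex at haE
  simp only [Set.mem_iUnion, Set.mem_union, Set.mem_ofPred_eq, not_exists, not_or, not_and, not_not] at haE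
  rw [Metric.tendsto_nhds]
  intro ε hε
  obtain ⟨k, hk⟩ := exists_nat_gt (4 * (1 + K * 8) / (ε / 4))
  obtain ⟨h, hh⟩ : ∃ h : ℝ, h = 1 / ((k : ℝ) + 4) := ⟨_, rfl⟩
  have hk0 : (0 : ℝ) ≤ k := Nat.cast_nonneg _
  have hh0 : 0 < h := by rw [hh]; positivity
  have hh4 : h ≤ 1 / 4 := by
    rw [hh]
    exact one_div_le_one_div_of_le (by norm_num) (by linarith)
  have hhε : 4 * (1 + K * 8) * h ≤ ε / 4 := by
    rw [div_lt_iff₀ (by positivity)] at hk
    rw [hh, mul_one_div, div_le_iff₀ (by positivity)]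
    nlinarith
  obtain ⟨g1, g2⟩ := haE k
  have g1 := g1 ha
  have g2 := g2 ha
  rw [← hh] at g1 g2
  unfold Cd at g1 g2
  -- continuous averages of the error function
  have g4 := hreg a ha (fun v => ((Bh h v : ℝ) : ℂ)) (Complex.continuous_ofReal.comp (Bh_cont h)) (fun v => by
    rw [Complex.norm_real, Real.norm_of_nonneg (Bh_nonneg _ _)]
    exact Bh_le _ _) 0 (8 * h) (by positivity) (by
      filter_upwards [eventually_ge_atTop (1 : ℝ)] with V hV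
      have hV0 : 0 < V := by linarith
      rw [sub_zero, intervalIntegral.integral_ofReal, norm_mul, norm_div, norm_one, Complex.norm_real,
        Complex.norm_real, Real.norm_eq_abs, abs_of_pos hV0, Real.norm_of_nonneg
        (intervalIntegral.integral_nonneg hV0.le fun v _ => Bh_nonneg _ _)]
      exact Bh_avg hh0 hh4 V hV) h hh0
  have hlo : ∀ u v : ℝ, IntervalIntegrable (fun v => lo b h (a * p v)) volume u v := by
    intro u v
    refine (intervalIntegrable_const (c := (1 : ℝ))).mono_fun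
      ((lo_cont hb h).measurable.comp hapm).aestronglyMeasurable (ae_of_all _ fun y => ?_)
    rw [norm_one]
    exact lo_norm hb hh0 _
  have hsf : ∀ u v : ℝ, IntervalIntegrable (fun v => sf b (a * p v)) volume u v := by
    intro u v
    refine (intervalIntegrable_const (c := (1 : ℝ))).mono_fun
      ((sf_meas b).comp hapm).aestronglyMeasurable (ae_of_all _ fun y => ?_)
    rw [norm_one]
    exact hb _
  have hBi : ∀ u v : ℝ, IntervalIntegrable (fun v => Bh h (a * p v)) volume u v := by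
    intro u v
    refine (intervalIntegrable_const (c := (1 : ℝ))).mono_fun
      ((Bh_cont h).measurable.comp hapm).aestronglyMeasurable (ae_of_all _ fun y => ?_)
    change ‖Bh h (a * p y)‖ ≤ ‖(1 : ℝ)‖
    rw [norm_one, Real.norm_of_nonneg (Bh_nonneg _ _)]
    exact Bh_le _ _
  filter_upwards [(Metric.tendsto_nhds.1 g1) (ε / 8) (by positivity), (Metric.tendsto_nhds.1 g2) (ε / 16) (by positivity),
    (Metric.tendsto_nhds.1 h3) (ε / 8) (by positivity), g4, eventually_ge_atTop 1] with N e1 e2 e3 e4 hN1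
  have hN0 : (0 : ℝ) < N := by exact_mod_cast hN1
  rw [dist_zero_right] at e1 e2
  rw [dist_eq_norm] at e3 ⊢
  rw [sub_zero] at e4
  obtain ⟨I, hI⟩ : ∃ I : ℝ, I = (1 / (N : ℝ)) * ∫ v in (0 : ℝ)..N, Bh h (a * p v) := ⟨_, rfl⟩
  obtain ⟨S, hS⟩ : ∃ S : ℝ, S = (1 / (N : ℝ)) * ∑ m ∈ Icc 1 N, Bh h (a * p m) := ⟨_, rfl⟩
  have hI4 : I ≤ h + K * (8 * h) := by
    refine le_trans (le_of_eq ?_) e4
    rw [intervalIntegral.integral_ofReal, norm_mul, norm_div, norm_one, Complex.norm_natCast, Complex.norm_real,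
      Real.norm_of_nonneg (intervalIntegral.integral_nonneg hN0.le fun v _ => Bh_nonneg _ _), hI]
  have hSI : S - I < ε / 16 := by
    refine lt_of_le_of_lt (le_trans (le_abs_self _) (le_of_eq ?_)) e2
    have : (1 / (N : ℂ)) * (∑ m ∈ Icc 1 N, ((Bh h (a * p m) : ℝ) : ℂ) - ∫ v in (0 : ℝ)..N, ((Bh h (a * p v) : ℝ) : ℂ)) =
        ((S - I : ℝ) : ℂ) := by
      rw [intervalIntegral.integral_ofReal, hS, hI]
      push_cast
      ring
    rw [this, Complex.norm_real, Real.norm_eq_abs]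
  have hdec : (1 / (N : ℂ)) * ∑ n ∈ Icc 1 N, b ⌊a * p n⌋₊ - L =
      ((1 / (N : ℂ)) * ∑ m ∈ Icc 1 N, (sf b (a * p m) - lo b h (a * p m))) +
      ((1 / (N : ℂ)) * (∑ m ∈ Icc 1 N, lo b h (a * p m) - ∫ v in (0 : ℝ)..N, lo b h (a * p v))) +
      ((1 / (N : ℂ)) * ∫ v in (0 : ℝ)..N, (lo b h (a * p v) - sf b (a * p v))) +
      ((1 / (N : ℂ)) * (∫ v in (0 : ℝ)..N, sf b (a * p v)) - L) := by
    rw [intervalIntegral.integral_sub (hlo _ _) (hsf _ _), sum_sub_distrib]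
    have : ∑ n ∈ Icc 1 N, b ⌊a * p n⌋₊ = ∑ m ∈ Icc 1 N, sf b (a * p m) := rfl
    rw [this]
    ring
  have f1 : ‖(1 / (N : ℂ)) * ∑ m ∈ Icc 1 N, (sf b (a * p m) - lo b h (a * p m))‖ ≤ 2 * S := by
    rw [norm_mul, norm_div, norm_one, Complex.norm_natCast, hS, ← mul_assoc, mul_comm (2 : ℝ), mul_assoc]
    refine mul_le_mul_of_nonneg_left ?_ (by positivity)
    rw [mul_sum]
    refine (norm_sum_le _ _).trans (sum_le_sum fun m _ => ?_)
    rw [norm_sub_rev]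
    exact lo_near hb hh0 hh4 _
  have f2 : ‖(1 / (N : ℂ)) * ∫ v in (0 : ℝ)..N, (lo b h (a * p v) - sf b (a * p v))‖ ≤ 2 * I := by
    rw [norm_mul, norm_div, norm_one, Complex.norm_natCast, hI, ← mul_assoc, mul_comm (2 : ℝ), mul_assoc]
    refine mul_le_mul_of_nonneg_left ?_ (by positivity)
    rw [← intervalIntegral.integral_const_mul]
    refine intervalIntegral.norm_integral_le_of_norm_le hN0.le ?_ ((hBi _ _).const_mul 2)
    exact ae_of_all _ fun v _ => lo_near hb hh0 hh4 _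
  rw [hdec]
  calc _ ≤ ‖(1 / (N : ℂ)) * ∑ m ∈ Icc 1 N, (sf b (a * p m) - lo b h (a * p m))‖ +
      ‖(1 / (N : ℂ)) * (∑ m ∈ Icc 1 N, lo b h (a * p m) - ∫ v in (0 : ℝ)..N, lo b h (a * p v))‖ +
      ‖(1 / (N : ℂ)) * ∫ v in (0 : ℝ)..N, (lo b h (a * p v) - sf b (a * p v))‖ +
      ‖(1 / (N : ℂ)) * (∫ v in (0 : ℝ)..N, sf b (a * p v)) - L‖ :=
        (norm_add_le _ _).trans (add_le_add ((norm_add_le _ _).trans (add_le_add (norm_add_le _ _) le_rfl)) le_rfl)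
    _ ≤ 2 * S + ε / 8 + 2 * I + ε / 8 := add_le_add (add_le_add (add_le_add f1 e1.le) f2) e3.le
    _ < ε := by linarith

/-- one bounded sequence -/
theorem seq_case {p : ℝ → ℝ} {d : ℕ} (hd0 : 0 < d) (hp : Dat p d) {b : ℕ → ℂ} {C : ℝ} (hb : ∀ n, ‖b n‖ ≤ C) {L : ℂ}
    (hL : Tendsto (fun M : ℕ => (1 / (M : ℂ)) * ∑ m ∈ Icc 1 M, b m) atTop (𝓝 L)) :
    ∃ D : Set ℝ, dimH D ≤ dk (kD d) d ∧ ∀ a : ℝ, 0 < a → a ∉ D →
      Tendsto (fun N : ℕ => (1 / (N : ℂ)) * ∑ n ∈ Icc 1 N, b ⌊a * p n⌋₊) atTop (𝓝 L) := by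
  have hC : 0 ≤ C := (norm_nonneg _).trans (hb 0)
  obtain ⟨D, hD⟩ : ∃ D : ℝ, D = C + 1 := ⟨_, rfl⟩
  have hD0 : 0 < D := by linarith
  have hDc : (D : ℂ) ≠ 0 := by exact_mod_cast hD0.ne'
  have hc1 : ∀ n, ‖(1 / (D : ℂ)) * b n‖ ≤ 1 := fun n => by
    rw [norm_mul, norm_div, norm_one, Complex.norm_real, Real.norm_eq_abs, abs_of_pos hD0]
    have := hb n
    rw [one_div, inv_mul_le_iff₀ hD0]
    linarith
  have hL1 : Tendsto (fun M : ℕ => (1 / (M : ℂ)) * ∑ m ∈ Finset.range M, (1 / (D : ℂ)) * b m) atTop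
      (𝓝 ((1 / (D : ℂ)) * L)) := by
    refine avg_range _ hc1 _ ?_
    refine (hL.const_mul (1 / (D : ℂ))).congr fun N => ?_
    rw [← Finset.mul_sum]
    ring
  refine ⟨Ex p fun n => (1 / (D : ℂ)) * b n, Ex_dim hd0 hp hc1, fun a ha haE => ?_⟩
  have h3 := (Ex_conv hp hc1 hL1 ha haE).const_mul (D : ℂ)
  rw [← mul_assoc, mul_one_div_cancel hDc, one_mul] at h3
  refine h3.congr fun N => ?_
  rw [← Finset.mul_sum]
  field_simp

end Pool.Agent.U587.PW
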