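import Pool.Agent.U587.PW.Stp

set_option autoImplicit false

/-!
The exceptional multiples of a polynomial for one bounded two-sided sequence.
-/

namespace Pool.Agent.U587.PW

open MeasureTheory Filter Finset
open Pool.Agent.Y957.St (avg_range sum_shift ev_congr)
open Pool.Agent.U587.PT
open scoped Topology ENNReal

/-- one bounded sequence, averages from zero -/
theorem seq_rng {p : ℝ → ℝ} {d : ℕ} (hd0 : 0 < d) (hp : Dat p d) {b : ℕ → ℂ} {C : ℝ} (hb : ∀ n, ‖b n‖ ≤ C) {L : ℂ}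
    (hL : Tendsto (fun M : ℕ => (1 / (M : ℂ)) * ∑ m ∈ range M, b m) atTop (𝓝 L)) :
    ∃ D : Set ℝ, dimH D ≤ dk (kD d) d ∧ ∀ a : ℝ, 0 < a → a ∉ D →
      Tendsto (fun N : ℕ => (1 / (N : ℂ)) * ∑ n ∈ Icc 1 N, b ⌊a * p n⌋₊) atTop (𝓝 L) := by
  have hC : 0 ≤ C := (norm_nonneg _).trans (hb 0)
  obtain ⟨D, hD⟩ : ∃ D : ℝ, D = C + 1 := ⟨_, rfl⟩
  have hD0 : 0 < D := by linarith
  have hDc : (D : ℂ) ≠ 0 := by exact_mod_cast hD0.ne'
  have hc1 : ∀ n, ‖(1 / (D : ℂ)) * b n‖ ≤ 1 := fun n => by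
    rw [norm_mul, norm_div, norm_one, Complex.norm_real, Real.norm_eq_abs, abs_of_pos hD0]
    have := hb n
    rw [one_div, inv_mul_le_iff₀ hD0]
    linarith
  have hL1 : Tendsto (fun M : ℕ => (1 / (M : ℂ)) * ∑ m ∈ Finset.range M, (1 / (D : ℂ)) * b m) atTop
      (𝓝 ((1 / (D : ℂ)) * L)) := by
    refine (hL.const_mul (1 / (D : ℂ))).congr fun N => ?_
    rw [← Finset.mul_sum]
    ring
  refine ⟨Ex p fun n => (1 / (D : ℂ)) * b n, Ex_dim hd0 hp hc1, fun a ha haE => ?_⟩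
  have h3 := (Ex_conv hp hc1 hL1 ha haE).const_mul (D : ℂ)
  rw [← mul_assoc, mul_one_div_cancel hDc, one_mul] at h3
  refine h3.congr fun N => ?_
  rw [← Finset.mul_sum]
  field_simp

lemma dim_neg (D : Set ℝ) : dimH {a : ℝ | -a ∈ D} ≤ dimH D := by
  have h : {a : ℝ | -a ∈ D} ⊆ (fun a : ℝ => -a) '' D := fun a ha => ⟨-a, ha, neg_neg a⟩
  have hl : LipschitzWith 1 fun a : ℝ => -a := by
    apply LipschitzWith.of_dist_le_mul
    intro b c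
    rw [Real.dist_eq, Real.dist_eq, NNReal.coe_one, one_mul, ← abs_neg]
    exact le_of_eq (by congr 1; ring)
  exact (dimH_mono h).trans (hl.dimH_image_le _)

theorem two_pos {P : Polynomial ℝ} {d : ℕ} (hd : 0 < P.natDegree) (hdd : P.natDegree ≤ d) (hl : 0 < P.leadingCoeff)
    {c : ℤ → ℂ} {C : ℝ} (hc : ∀ n, ‖c n‖ ≤ C) {L : ℂ}
    (h1 : Tendsto (fun M : ℕ => (1 / (M : ℂ)) * ∑ m ∈ Icc 1 M, c (m : ℤ)) atTop (𝓝 L))
    (h2 : Tendsto (fun M : ℕ => (1 / (M : ℂ)) * ∑ m ∈ Icc 1 M, c (-(m : ℤ))) atTop (𝓝 L)) :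
    ∃ D : Set ℝ, dimH D ≤ dk (kD d) d ∧ ∀ a : ℝ, a ∉ D →
      Tendsto (fun N : ℕ => (1 / (N : ℂ)) * ∑ n ∈ Icc 1 N, c ⌊a * P.eval (n : ℝ)⌋) atTop (𝓝 L) := by
  have hd0 : 0 < d := lt_of_lt_of_le hd hdd
  obtain ⟨D1, hD1, k1⟩ := seq_case hd0 (dat_poly hd hl hdd) (b := fun m => c (m : ℤ)) (fun m => hc _) h1
  obtain ⟨D2, hD2, k2⟩ := seq_rng hd0 (dat_poly hd hl hdd) (b := fun m => c (-((m + 1 : ℕ) : ℤ))) (fun m => hc _)
    (L := L) (by
      refine h2.congr fun N => ?_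
      rw [← sum_shift (fun m : ℕ => c (-(m : ℤ)))])
  obtain ⟨Z, hZ⟩ : ∃ Z : Set ℝ, Z = ⋃ n : ℕ, ⋃ k : ℤ, {(k : ℝ) / P.eval (n : ℝ)} := ⟨_, rfl⟩
  have hZc : Z.Countable := by
    rw [hZ]
    exact Set.countable_iUnion fun n => Set.countable_iUnion fun k => Set.countable_singleton _
  refine ⟨(D1 ∪ {a : ℝ | -a ∈ D2}) ∪ (Z ∪ {0}), ?_, fun a ha => ?_⟩
  · rw [dimH_union, dimH_union, dimH_countable (hZc.union (Set.countable_singleton 0))]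
    exact max_le (max_le hD1 ((dim_neg D2).trans hD2)) zero_le
  simp only [Set.mem_union, Set.mem_ofPred_eq, Set.mem_singleton_iff, not_or] at ha
  obtain ⟨⟨a1, a2⟩, a3, a5⟩ := ha
  have a4 : ∀ (n : ℕ) (k : ℤ), P.eval (n : ℝ) ≠ 0 → a * P.eval (n : ℝ) ≠ k := by
    intro n k hP hcon
    apply a3
    rw [hZ]
    simp only [Set.mem_iUnion, Set.mem_singleton_iff]
    exact ⟨n, k, (eq_div_iff hP).2 hcon⟩
  have hev : ∀ᶠ n : ℕ in atTop, 0 < P.eval (n : ℝ) :=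
    tendsto_natCast_atTop_atTop.eventually
      ((P.tendsto_atTop_of_leadingCoeff_nonneg (Polynomial.natDegree_pos_iff_degree_pos.1 hd)
        hl.le).eventually_gt_atTop 0)
  rcases lt_or_gt_of_ne a5 with ha | ha
  · refine ev_congr _ _ ?_ L (k2 (-a) (by linarith) a2)
    filter_upwards [hev] with n hn
    congr 1
    symm
    rw [Int.floor_eq_iff]
    have t0 : 0 ≤ -a * P.eval (n : ℝ) := mul_nonneg (by linarith) hn.le
    have t1 := Nat.floor_le t0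
    have t2 := Nat.lt_floor_add_one (-a * P.eval (n : ℝ))
    have t3 : ((⌊-a * P.eval (n : ℝ)⌋₊ : ℕ) : ℝ) ≠ -a * P.eval (n : ℝ) := by
      intro hcon
      refine a4 n (-(⌊-a * P.eval (n : ℝ)⌋₊ : ℤ)) hn.ne' ?_
      push_cast
      rw [hcon]
      ring
    have t4 : ((⌊-a * P.eval (n : ℝ)⌋₊ : ℕ) : ℝ) < -a * P.eval (n : ℝ) := lt_of_le_of_ne t1 t3
    push_cast
    constructor
    · linarith
    · linarith
  · refine ev_congr _ _ ?_ L (k1 a ha a1)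
    filter_upwards [hev] with n hn
    congr 1
    exact Int.natCast_floor_eq_floor (mul_nonneg ha.le hn.le)

/-- nonconstant polynomials, bounded sequences -/
theorem two {P : Polynomial ℝ} {d : ℕ} (hd : 0 < P.natDegree) (hdd : P.natDegree ≤ d)
    {c : ℤ → ℂ} {C : ℝ} (hc : ∀ n, ‖c n‖ ≤ C) {L : ℂ}
    (h1 : Tendsto (fun M : ℕ => (1 / (M : ℂ)) * ∑ m ∈ Icc 1 M, c (m : ℤ)) atTop (𝓝 L))
    (h2 : Tendsto (fun M : ℕ => (1 / (M : ℂ)) * ∑ m ∈ Icc 1 M, c (-(m : ℤ))) atTop (𝓝 L)) :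
    ∃ D : Set ℝ, dimH D ≤ dk (kD d) d ∧ ∀ a : ℝ, a ∉ D →
      Tendsto (fun N : ℕ => (1 / (N : ℂ)) * ∑ n ∈ Icc 1 N, c ⌊a * P.eval (n : ℝ)⌋) atTop (𝓝 L) := by
  rcases lt_trichotomy P.leadingCoeff 0 with hl | hl | hl
  · obtain ⟨D, hD, h⟩ := two_pos (P := -P) (d := d) (by rwa [Polynomial.natDegree_neg]) (by rwa [Polynomial.natDegree_neg])
      (by rw [Polynomial.leadingCoeff_neg]; linarith) hc h1 h2
    refine ⟨{a : ℝ | -a ∈ D}, (dim_neg D).trans hD, fun a ha => ?_⟩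
    have h3 := h (-a) ha
    simpa only [Polynomial.eval_neg, neg_mul_neg] using h3
  · exfalso
    rw [Polynomial.leadingCoeff_eq_zero] at hl
    rw [hl] at hd
    simp at hd
  · exact two_pos hd hdd hl hc h1 h2

end Pool.Agent.U587.PW
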